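import Pool.Agent.N334.CN.Stm
import Pool.Agent.H349R2.Tet.Vol

/-! The volume of a union of four tetrahedra. -/

set_option autoImplicit false

namespace Pool.Agent.N707.CNVOL

open MeasureTheory

abbrev V := Fin 3 → ℝ

/-- the unit simplex -/
def T : Set V := {y | (∀ m, 0 ≤ y m) ∧ ∑ m, y m ≤ 1}

theorem vol_T : volume T = ENNReal.ofReal (1 / 6) := by
  have h := Pool.Agent.H349R2.Tet.vol_le 1 zero_le_one
  rw [one_pow] at h
  rw [← h]
  congr 1
  ext y
  simp only [T, Set.mem_ofPred_eq, Fin.forall_fin_succ, Fin.sum_univ_three]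
  simp
  tauto

theorem vol_Tn (n : Fin 3) : volume {y : V | y ∈ T ∧ 0 < y n} = ENNReal.ofReal (1 / 6) := by
  have h1 : {y : V | y ∈ T ∧ 0 < y n} = T \ {y : V | y n = 0} := by
    ext y
    simp only [Set.mem_ofPred_eq, Set.mem_sdiff]
    constructor
    · rintro ⟨h1, h2⟩; exact ⟨h1, h2.ne'⟩
    · rintro ⟨h1, h2⟩; exact ⟨h1, lt_of_le_of_ne (h1.1 n) (Ne.symm h2)⟩
  rw [h1, measure_sdiff_null, vol_T]
  exact Measure.pi_hyperplane (fun _ : Fin 3 => (volume : Measure ℝ)) n 0

theorem comb_mem {K : Set V} (hK : Convex ℝ K) (h0 : (0 : V) ∈ K) (z : Fin 3 → V) (hz : ∀ m, z m ∈ K) {y : V}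
    (hy : y ∈ T) : ∑ m, y m • z m ∈ K := by
  have h1 := hK.sum_mem (t := Finset.univ) (w := fun i : Option (Fin 3) => i.elim (1 - ∑ m, y m) y)
    (z := fun i : Option (Fin 3) => i.elim 0 z) (by
      rintro (_ | i) _
      · exact sub_nonneg.2 hy.2
      · exact hy.1 i) (by rw [Fintype.sum_option]; simp) (by
      rintro (_ | i) _
      · exact h0
      · exact hz i)
  rw [Fintype.sum_option] at h1
  simpa using h1

theorem t_VOL : Pool.Agent.N334.CN.S_VOL := by
  intro K hK h0 he P r hr hPr hP hPK
  obtain ⟨t, ht⟩ : ∃ t : Option (Fin 3) → Set V, t = fun i => i.elim {x | ∀ m, 0 ≤ x m} (fun n =>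
    {x | x n < 0 ∧ ∀ m, m ≠ n → 0 ≤ x m}) := ⟨_, rfl⟩
  have htm : ∀ i, MeasurableSet (t i) := by
    rintro (_ | n)
    · rw [ht]
      show MeasurableSet {x : V | ∀ m, 0 ≤ x m}
      have : {x : V | ∀ m, 0 ≤ x m} = ⋂ m, {x : V | 0 ≤ x m} := by ext x; simp
      rw [this]
      exact MeasurableSet.iInter fun m => measurableSet_le measurable_const (measurable_pi_apply m)
    · rw [ht]
      show MeasurableSet {x : V | x n < 0 ∧ ∀ m, m ≠ n → 0 ≤ x m}
      have : {x : V | x n < 0 ∧ ∀ m, m ≠ n → 0 ≤ x m} =
          {x : V | x n < 0} ∩ ⋂ m, ⋂ (_ : m ≠ n), {x : V | 0 ≤ x m} := by ext x; simp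
      rw [this]
      exact (measurableSet_lt (measurable_pi_apply n) measurable_const).inter
        (MeasurableSet.iInter fun m => MeasurableSet.iInter fun _ =>
          measurableSet_le measurable_const (measurable_pi_apply m))
  have hdis : Set.PairwiseDisjoint ((Finset.univ : Finset (Option (Fin 3))) : Set (Option (Fin 3))) t := by
    rintro i _ j _ hij
    rw [Function.onFun, Set.disjoint_left]
    intro x hx hx'
    rw [ht] at hx hx'
    rcases i with _ | i <;> rcases j with _ | j
    · exact hij rfl
    · have h1 : ∀ m, 0 ≤ x m := hx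
      have h2 : x j < 0 ∧ ∀ m, m ≠ j → 0 ≤ x m := hx'
      linarith [h1 j, h2.1]
    · have h1 : ∀ m, 0 ≤ x m := hx'
      have h2 : x i < 0 ∧ ∀ m, m ≠ i → 0 ≤ x m := hx
      linarith [h1 i, h2.1]
    · have h1 : x j < 0 ∧ ∀ m, m ≠ j → 0 ≤ x m := hx'
      have h2 : x i < 0 ∧ ∀ m, m ≠ i → 0 ≤ x m := hx
      have hne : i ≠ j := fun h => hij (by rw [h])
      linarith [h1.2 i hne, h2.1]
  have hsum := sum_measure_le_measure_univ (μ := volume.restrict K) (s := Finset.univ) (t := t)
    (fun i _ => (htm i).nullMeasurableSet) hdis.aedisjoint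
  rw [Measure.restrict_apply_univ, Fintype.sum_option] at hsum
  refine le_trans ?_ hsum
  have hT : ENNReal.ofReal (1 / 6) ≤ (volume.restrict K) (t none) := by
    rw [Measure.restrict_apply (htm none), ← vol_T]
    apply measure_mono
    intro y hy
    refine ⟨?_, ?_⟩
    · rw [ht]; exact hy.1
    · have h1 := comb_mem hK h0 (fun m => (Pi.single m 1 : V)) he hy
      have h2 : ∑ m, y m • (Pi.single m 1 : V) = y := by
        ext k
        simp [Finset.sum_apply, Pi.single_apply]
      rwa [h2] at h1
  have hD : ∀ n, ENNReal.ofReal (r n / 6) ≤ (volume.restrict K) (t (some n)) := by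
    intro n
    rcases eq_or_lt_of_le (hr n) with h | h
    · rw [← h, zero_div, ENNReal.ofReal_zero]
      exact zero_le
    · obtain ⟨M, hM⟩ : ∃ M : Matrix (Fin 3) (Fin 3) ℝ, M = (1 : Matrix (Fin 3) (Fin 3) ℝ).updateCol n (P n) := ⟨_, rfl⟩
      have hdet : M.det = -r n := by
        rw [hM, ← Matrix.cramer_apply, Matrix.cramer_one, ← hPr n]
        rfl
      have hval : ∀ y : V, Matrix.toLin' M y = ∑ m, y m • (if m = n then P n else (Pi.single m 1 : V)) := by
        intro y
        rw [Matrix.toLin'_apply, hM]
        ext k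
        rw [Matrix.mulVec, dotProduct, Finset.sum_apply]
        apply Finset.sum_congr rfl
        intro m _
        rw [Matrix.updateCol_apply]
        by_cases hm : m = n
        · rw [if_pos hm, if_pos hm, Pi.smul_apply, smul_eq_mul, mul_comm]
        · rw [if_neg hm, if_neg hm, Pi.smul_apply, smul_eq_mul, mul_comm, Matrix.one_apply, Pi.single_apply]
      have hvol : volume (Matrix.toLin' M '' {y : V | y ∈ T ∧ 0 < y n}) = ENNReal.ofReal (r n / 6) := by
        rw [Measure.addHaar_image_linearMap, LinearMap.det_toLin', hdet, vol_Tn, abs_neg, abs_of_pos h,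
          ← ENNReal.ofReal_mul h.le]
        congr 1
        ring
      rw [Measure.restrict_apply (htm _), ← hvol]
      apply measure_mono
      rintro x ⟨y, ⟨hy, hyn⟩, rfl⟩
      have hco : ∀ m, (Matrix.toLin' M y) m = (if m = n then 0 else y m) + y n * P n m := by
        intro m
        rw [hval]
        simp only [Finset.sum_apply, Pi.smul_apply, smul_eq_mul]
        have : ∀ k, y k * (if k = n then P n else (Pi.single k 1 : V)) m =
            (if k = n then y n * P n m else if k = m then y m else 0) := by
          intro k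
          by_cases hk : k = n
          · rw [if_pos hk, if_pos hk, hk]
          · rw [if_neg hk, if_neg hk, Pi.single_apply]
            by_cases hk2 : m = k
            · rw [if_pos hk2, if_pos hk2.symm, hk2, mul_one]
            · rw [if_neg hk2, if_neg (Ne.symm hk2), mul_zero]
        simp only [this]
        by_cases hm : m = n
        · subst hm
          rw [if_pos rfl, Finset.sum_eq_single m]
          · simp
          · intro k _ hk; rw [if_neg hk, if_neg hk]
          · simp
        · rw [if_neg hm]
          have e1 : ∀ k, (if k = n then y n * P n m else if k = m then y m else 0) =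
              (if k = n then y n * P n m else 0) + (if k = m then y m else 0) := by
            intro k
            by_cases hk : k = n
            · rw [if_pos hk, if_pos hk, if_neg (fun h => hm (by rw [← h, hk])), add_zero]
            · rw [if_neg hk, if_neg hk, zero_add]
          simp only [e1, Finset.sum_add_distrib, Finset.sum_ite_eq', Finset.mem_univ, if_true]
          ring
      refine ⟨?_, ?_⟩
      · rw [ht]
        show (Matrix.toLin' M y) n < 0 ∧ ∀ m, m ≠ n → 0 ≤ (Matrix.toLin' M y) m
        refine ⟨?_, fun m hm => ?_⟩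
        · rw [hco, if_pos rfl, hPr n]
          have := mul_pos hyn h
          linarith
        · rw [hco, if_neg hm]
          have h1 := hy.1 m
          have h2 := mul_nonneg hyn.le (hP n m hm)
          linarith
      · rw [hval]
        apply comb_mem hK h0 _ _ hy
        intro m
        by_cases hm : m = n
        · rw [if_pos hm]; exact hPK n
        · rw [if_neg hm]; exact he m
  have hfin : ENNReal.ofReal ((1 + r 0 + r 1 + r 2) / 6) = ENNReal.ofReal (1 / 6) + ∑ n, ENNReal.ofReal (r n / 6) := by
    rw [← ENNReal.ofReal_sum_of_nonneg (fun n _ => div_nonneg (hr n) (by norm_num)),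
      ← ENNReal.ofReal_add (by norm_num) (Finset.sum_nonneg fun n _ => div_nonneg (hr n) (by norm_num))]
    congr 1
    rw [Fin.sum_univ_three]
    ring
  rw [hfin]
  exact add_le_add hT (Finset.sum_le_sum fun n _ => hD n)

end Pool.Agent.N707.CNVOL
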